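import Mathlib
import Pool.Agent.N86.SQ.LineRate

/-!
# Powers of local schemes and unions of concurrent lines

For a local finite scheme `Γ` let `ℓ(Γ)` be the least number of lines through a point of some affine
space whose union contains `Γ`. The exponential growth rates of `ℓ(Γ^n)` and of
`deg Γ^n + δ(Γ^n)` are equal. In particular Q1 holds for `Γ` if and only if the `n`-th root of
`ℓ(Γ^n)` tends to `deg Γ`.
-/

set_option autoImplicit false

namespace Pool.Agent.Results.MP_44217d_ag.ConcurrentLines

open Pool.Agent.H826R3.SM Pool.Agent.TH671.DU Pool.Agent.N86.SQ Filter Topology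

/-- Let `k` be algebraically closed and `Γ = Spec A` a local finite `k`-scheme. `InLines k B W` says
that `Spec B` has an embedding in an affine space, which maps its points to the origin, such that it
is contained in the union of `W` lines through the origin (a reduced curve, whose equations are the
polynomials whose homogeneous components all vanish at the points `p w` on the lines; `p w = 0` is
allowed), and `lineNumber k B` is the least such `W`. For the powers `Γ^n` such a `W` exists, and

* `deg Γ^n + δ(Γ^n) ≤ (s n + 2) ℓ(Γ^n)` for all `n`, with a constant `s` depending on `Γ`;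
* for all `η > 0` there is a constant `C` with `ℓ(Γ^n) ≤ C (ρ + η)^n` for all `n`, where
  `ρ = rate k A` is the growth rate of `deg Γ^n + δ(Γ^n)`;
* the `n`-th root of `ℓ(Γ^n)` tends to `ρ`;
* Q1 holds for `Γ` if and only if the `n`-th root of `ℓ(Γ^n)` tends to `deg Γ`. -/
theorem result (k : Type) [Field k] [IsAlgClosed k] (A : Type) [CommRing A] [Algebra k A]
    [Module.Finite k A] [IsLocalRing A] :
    (∀ n : ℕ, InLines k (Pow k A n) (lineNumber k (Pow k A n))) ∧
    (∃ s : ℕ, ∀ n : ℕ, Module.finrank k (Pow k A n) + defect k (Pow k A n) ≤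
      (s * n + 2) * lineNumber k (Pow k A n)) ∧
    (∀ η : ℝ, 0 < η → ∃ C : ℝ, ∀ n : ℕ,
      (lineNumber k (Pow k A n) : ℝ) ≤ C * (rate k A + η) ^ n) ∧
    Tendsto (fun n : ℕ => (lineNumber k (Pow k A (n + 1)) : ℝ) ^ (1 / ((n : ℝ) + 1))) atTop
      (𝓝 (rate k A)) ∧
    (QOne k A ↔ Tendsto (fun n : ℕ =>
      (lineNumber k (Pow k A (n + 1)) : ℝ) ^ (1 / ((n : ℝ) + 1))) atTop
        (𝓝 (Module.finrank k A : ℝ))) := by
  refine ⟨inLines_lineNumber A, ?_, fun η hη => ?_, lineNumber_tendsto A, qOne_iff_lines A⟩
  · obtain ⟨s, hs⟩ := lineNumber_lower (k := k) A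
    refine ⟨s, fun n => ?_⟩
    rw [fadd k (Pow k A n)]
    exact hs n
  · obtain ⟨C, -, hC⟩ := lineNumber_growth (k := k) A η hη
    exact ⟨C, hC⟩

end Pool.Agent.Results.MP_44217d_ag.ConcurrentLines
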