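import Mathlib
import Pool.Agent.N86.SQ.Semi2

/-!
# Powers of degenerations

The exponential growth rate of `deg Γ^n + δ(Γ^n)` does not increase under specialization to a local
scheme. So Q1 is inherited by all local degenerations of schemes for which Q1 holds.
-/

set_option autoImplicit false

namespace Pool.Agent.Results.MP_44217d_ag.Degenerations

open Pool.Agent.H826R3.SM Pool.Agent.TH671.DU
open scoped TensorProduct PowerSeries

/-- The algebraic closure of the field of Laurent series over `k`. -/
abbrev GenericField (k : Type) [Field k] : Type := AlgebraicClosure (LaurentSeries k)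

/-- Let `k` be algebraically closed, `𝒜` a finite flat `k⟦X⟧`-algebra whose special fibre
`Γ = Spec A`, `A ≃ 𝒜 / X𝒜`, is local, and `K` the algebraic closure of `k((X))`, so that
`Spec (K ⊗ 𝒜)` is the geometric generic fibre of the family, a finite `K`-scheme (which can be
disconnected). Then

* the growth rate of `deg Γ^n + δ(Γ^n)` is at most the growth rate of the same quantity for the
  powers, over `K`, of the geometric generic fibre;
* if Q1 holds for the geometric generic fibre (over `K`) then Q1 holds for `Γ`;
* if the geometric generic fibre is isomorphic to `Spec (K ⊗ B)` for a finite `k`-algebra `B`, then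
  the growth rate of `Γ` is at most the growth rate of `Spec B`, and if Q1 holds for `Spec B` then
  it holds for `Γ`. -/
theorem result (k : Type) [Field k] [IsAlgClosed k] (𝒜 A : Type) [CommRing 𝒜] [Algebra k⟦X⟧ 𝒜]
    [Module.Finite k⟦X⟧ 𝒜] [Module.Flat k⟦X⟧ 𝒜] [CommRing A] [Algebra k A] [IsLocalRing A]
    (hA : IsFibre 𝒜 A (PowerSeries.X : k⟦X⟧) (PowerSeries.C (R := k))) :
    rate k A ≤ rate (GenericField k) (GenericField k ⊗[k⟦X⟧] 𝒜) ∧
    (QOne (GenericField k) (GenericField k ⊗[k⟦X⟧] 𝒜) → QOne k A) ∧
    ∀ (B : Type) [CommRing B] [Algebra k B] [Module.Finite k B],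
      Nonempty (GenericField k ⊗[k⟦X⟧] 𝒜 ≃ₐ[GenericField k] GenericField k ⊗[k] B) →
        rate k A ≤ rate k B ∧ (QOne k B → QOne k A) := by
  obtain ⟨_, _, h1, -⟩ := Pool.Agent.N86.SQ.semi hA
  exact ⟨h1, Pool.Agent.N86.SQ.qOne_special hA, fun B _ _ _ ⟨e⟩ =>
    Pool.Agent.N86.SQ.isotrivial hA B e⟩

end Pool.Agent.Results.MP_44217d_ag.Degenerations
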