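import Mathlib
import Pool.Agent.N86.SQ.Rate

/-!
# Smoothability defects of images of finite schemes

Let `A` be a subquotient of the finite `k`-algebra `B` (a quotient of a subalgebra), that is,
`Spec A` is a closed subscheme of the image of `Spec B` under some morphism, for instance of a
quotient of `Spec B` by a group. Then `deg + δ` of `Spec A`, of all its powers, and the growth rate
of the powers are at most those of `Spec B`. In particular the image of a smoothable scheme of degree
`D` lies in a smoothable scheme of degree at most `D`. Hence in Q1 the smoothable schemes containing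
the powers can be replaced by smoothable schemes, or by schemes for which Q1 holds, of which the
powers are subquotients.
-/

set_option autoImplicit false

namespace Pool.Agent.Results.MP_44217d_ag.Subquotients

open Pool.Agent.H826R3.SM Pool.Agent.TH671.DU Pool.Agent.N86.SQ
open scoped TensorProduct

/-- `k` is an algebraically closed field, `A`, `B` finite-dimensional commutative `k`-algebras,
`Γ = Spec A`; `defect k A` is the smoothability defect `δ(Γ)`, `Pow k A n` the coordinate ring of
`Γ^n`, `QOne k A` is Q1 for `Γ`, `rate k A` the infimum (and limit) of `(deg Γ^n + δ(Γ^n))^{1/n}`,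
`IsSubquotient k A B`: `A` is a quotient of a subalgebra of `B`.
(1) `deg Γ + δ(Γ)` is the least degree of a smoothable scheme of which `Γ` is a subquotient.
(2) If `A` is a subquotient of `B` then `deg + δ` of the powers of `Spec A` is at most `deg + δ` of
the powers of `Spec B`, and the growth rate of `Spec A` is at most that of `Spec B`.
(3) In particular for smoothable `B` the growth rate of every subquotient is at most `dim B`, and
all the powers satisfy `(dim A)^n + δ(Γ^n) ≤ (dim B)^n`.
(4) Q1 holds for `Γ` if and only if for every `η > 0` some power `Γ^m`, `m ≥ 1`, is a subquotient of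
a smoothable scheme of degree at most `((1 + η) deg Γ)^m`.
(5) It is enough that for every `η > 0` some power `Γ^m` is a subquotient of a scheme of degree at
most `((1 + η) deg Γ)^m` for which Q1 holds. -/
theorem result (k : Type) [Field k] [IsAlgClosed k] :
    (∀ (A : Type) [CommRing A] [Algebra k A] [Module.Finite k A],
      IsLeast {D : ℕ | ∃ (B : Type) (_ : CommRing B) (_ : Algebra k B) (_ : Module.Finite k B),
        Smoothable k B ∧ Module.finrank k B = D ∧ IsSubquotient k A B}
        (Module.finrank k A + defect k A)) ∧
    (∀ (A B : Type) [CommRing A] [Algebra k A] [Module.Finite k A] [Nontrivial A]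
      [CommRing B] [Algebra k B] [Module.Finite k B] [Nontrivial B], IsSubquotient k A B →
      (∀ n : ℕ, Module.finrank k A ^ n + defect k (Pow k A n) ≤
        Module.finrank k B ^ n + defect k (Pow k B n)) ∧
      rate k A ≤ rate k B ∧
      (Smoothable k B → rate k A ≤ Module.finrank k B ∧
        ∀ n : ℕ, Module.finrank k A ^ n + defect k (Pow k A n) ≤ Module.finrank k B ^ n)) ∧
    (∀ (A : Type) [CommRing A] [Algebra k A] [Module.Finite k A] [Nontrivial A],
      QOne k A ↔ ∀ η : ℝ, 0 < η → ∃ (m : ℕ) (B : Type) (_ : CommRing B) (_ : Algebra k B)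
        (_ : Module.Finite k B), 1 ≤ m ∧ Smoothable k B ∧ IsSubquotient k (Pow k A m) B ∧
          (Module.finrank k B : ℝ) ≤ ((1 + η) * Module.finrank k A) ^ m) ∧
    (∀ (A : Type) [CommRing A] [Algebra k A] [Module.Finite k A] [Nontrivial A],
      (∀ η : ℝ, 0 < η → ∃ (m : ℕ) (B : Type) (_ : CommRing B) (_ : Algebra k B)
        (_ : Module.Finite k B) (_ : Nontrivial B), 1 ≤ m ∧ QOne k B ∧
          IsSubquotient k (Pow k A m) B ∧
          (Module.finrank k B : ℝ) ≤ ((1 + η) * Module.finrank k A) ^ m) → QOne k A) := by
  refine ⟨?_, ?_, fun A _ _ _ _ => qOne_iff_sub A, fun A _ _ _ _ => qOne_of_sub A⟩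
  · intro A _ _ _
    constructor
    · obtain ⟨D, hD⟩ := exists_fam (k := k) A
      obtain ⟨D', -, hS⟩ := hD.inSmoothable
      obtain ⟨B, cB, aB, hBf, hBs, hBd, f, hf⟩ := defect_spec hS
      exact ⟨B, cB, aB, hBf, hBs, hBd, IsSubquotient.of_surjective f hf⟩
    · rintro D ⟨B, cB, aB, hBf, hBs, rfl, hsub⟩
      rw [fadd k A]
      exact TH671.DU.mdeg_le (hsub.fam (Smoothable.fam hBs))
  · intro A B _ _ _ _ _ _ _ _ hsub
    have h1 : ∀ n : ℕ, Module.finrank k A ^ n + defect k (Pow k A n) ≤
        Module.finrank k B ^ n + defect k (Pow k B n) := fun n => by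
      have := (hsub.pow n).defect_le
      rwa [finrank_Pow', finrank_Pow'] at this
    refine ⟨h1, rate_le hsub, fun hB => ⟨?_, fun n => ?_⟩⟩
    · rw [← rate_of_smoothable hB]
      exact rate_le hsub
    · have h2 : mdeg k (Pow k B n) ≤ Module.finrank k B ^ n := by
        rw [← finrank_Pow']
        exact TH671.DU.mdeg_le (Smoothable.pow_fam hB n)
      have h3 := fadd k (Pow k B n)
      rw [finrank_Pow'] at h3
      exact (h1 n).trans (by omega)

end Pool.Agent.Results.MP_44217d_ag.Subquotients
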