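import Mathlib
import Pool.Agent.N86.SQ.Clo3

/-!
# Growth rates of local schemes: Zariski closedness, well-ordering, finite certificates

The growth rate of a finite scheme `Γ` is the limit of the `n`-th roots of `deg Γ^n + δ(Γ^n)`. Among
the local schemes of degree `d` the locus `rate ≤ x` is Zariski closed, in particular the locus where
Q1 holds. So the growth rates of the local schemes of degree `d` are well-ordered, and Q1 for such a
scheme can be verified with one power.
-/

set_option autoImplicit false

namespace Pool.Agent.Results.MP_44217d_ag.WellOrderedRates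

open Pool.Agent.H826R3.SM Pool.Agent.TH671.DU Pool.Agent.N86.SQ
open MvPolynomial

/-- Let `k` be algebraically closed and `d` a natural number.

* Let `E y`, `y ∈ Y`, be commutative `k`-algebras with bases `c y` of `d` elements. Let
  `par (c y)` be the vector of the structure constants of `E y` and of the coordinates of the unit of
  `E y`. Let `Z ⊆ Y`, let `E y₀` be local and suppose that `y₀` lies in the Zariski closure of `Z`:
  all polynomials which vanish at `par (c y)` for `y ∈ Z` vanish at `par (c y₀)`. If the growth rates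
  of `Spec (E y)`, `y ∈ Z`, are at most `x`, then so is the growth rate of `Spec (E y₀)`. If Q1 holds
  for `Spec (E y)` for all `y ∈ Z`, then it holds for `Spec (E y₀)`.
* The set of the growth rates of the local finite `k`-schemes of degree `d` is well-ordered: there
  are no strictly decreasing sequences in it.
* There is an `ε > 0` such that Q1 holds for a local finite `k`-scheme `Γ` of degree `d` if and only
  if `d ^ n + δ(Γ^n) < (d + ε) ^ n` for some `n ≥ 1`. -/
theorem result (k : Type) [Field k] [IsAlgClosed k] (d : ℕ) :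
    (∀ (Y : Type) (E : Y → Type) [∀ y, CommRing (E y)] [∀ y, Algebra k (E y)]
      (c : ∀ y, Module.Basis (Fin d) k (E y)) (y₀ : Y) (Z : Set Y), IsLocalRing (E y₀) →
      (∀ Q : MvPolynomial (PIdx d) k, (∀ y ∈ Z, eval (par (c y)) Q = 0) →
        eval (par (c y₀)) Q = 0) →
      (∀ x : ℝ, (∀ y ∈ Z, rate k (E y) ≤ x) → rate k (E y₀) ≤ x) ∧
      ((∀ y ∈ Z, QOne k (E y)) → QOne k (E y₀))) ∧
    (growthRates k d).IsWF ∧
    ∃ ε : ℝ, 0 < ε ∧ ∀ (A : Type) [CommRing A] [Algebra k A] [Module.Finite k A] [IsLocalRing A],
      Module.finrank k A = d →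
        (QOne k A ↔ ∃ n : ℕ, 1 ≤ n ∧
          (d : ℝ) ^ n + defect k (Pow k A n) < ((d : ℝ) + ε) ^ n) := by
  refine ⟨?_, growthRates_isWF d, gap d⟩
  intro Y E _ _ c y₀ Z hloc hcl
  have hfin : ∀ y, Module.Finite k (E y) := fun y => Module.Finite.of_basis (c y)
  have hd : ∀ y, Module.finrank k (E y) = d := fun y => by
    rw [Module.finrank_eq_card_basis (c y), Fintype.card_fin]
  have hd0 : 0 < d := by
    rw [← hd y₀]
    exact Module.finrank_pos
  have hnt : ∀ y, Nontrivial (E y) := fun y => Module.nontrivial_of_finrank_pos (R := k) (by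
    rw [hd y]
    exact hd0)
  have h1 : ∀ x : ℝ, (∀ y ∈ Z, rate k (E y) ≤ x) → rate k (E y₀) ≤ x := fun x hx =>
    closure_rate c y₀ (fun i : Z => (i : Y)) (fun Q hQ => hcl Q fun y hy => hQ ⟨y, hy⟩)
      fun i => hx i i.2
  refine ⟨h1, fun hQ => ?_⟩
  rw [qOne_iff_rate, hd]
  refine le_antisymm (h1 d fun y hy => ?_) ?_
  · have h2 := hQ y hy
    rw [qOne_iff_rate, hd] at h2
    exact h2.le
  · have := finrank_le_rate (k := k) (E y₀)
    rwa [hd] at this

end Pool.Agent.Results.MP_44217d_ag.WellOrderedRates
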